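import Pool.Agent.Helper93.WC.St

/-!
# Project WC (MP_e74dc5_nt), module WKK: powers of 5 modulo `2 ^ (n + 2)`
-/

set_option autoImplicit false

open Polynomial Helper62.Weber Pool.Agent.Helper93.WC

namespace Pool.Agent.Helper6.WC

theorem pow_exp (R h k : ℕ) : ∃ q : ℕ, (1 + R * h) ^ k = 1 + k * (R * h) + R ^ 2 * q := by
  induction k with
  | zero => exact ⟨0, by simp⟩
  | succ k ih =>
    obtain ⟨q, hq⟩ := ih
    refine ⟨k * h ^ 2 + q + q * R * h, ?_⟩
    rw [pow_succ, hq]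
    ring

theorem cWKK : WKK := by
  intro F _ n r hr hrn h2r z hz
  obtain ⟨c, hc⟩ := five_pow (n - r)
  set h : ℕ := 1 + 2 * c with hh
  set R : ℕ := 2 ^ (n - r + 2) with hR
  have hRr : R * 2 ^ r = 2 ^ (n + 2) := by
    rw [hR, ← pow_add]
    congr 1
    omega
  have hR2 : 2 ^ (n + 2) ∣ R ^ 2 := by
    rw [hR, ← pow_mul]
    exact pow_dvd_pow 2 (by omega)
  have hex : ∀ k, ∃ q : ℕ, ex n r k = 1 + k * (R * h) + R ^ 2 * q := by
    intro k
    obtain ⟨q, hq⟩ := pow_exp R h k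
    refine ⟨q, ?_⟩
    rw [← hq, ex, mul_comm k, pow_mul, hc]
  have hz1 : ∀ q : ℕ, z ^ (R ^ 2 * q) = 1 := by
    intro q
    obtain ⟨t, ht⟩ := hR2
    rw [ht, mul_assoc, pow_mul, hz.pow_eq_one, one_pow]
  have hzk : ∀ k, z ^ (ex n r k - 1) = z ^ (k * (R * h)) := by
    intro k
    obtain ⟨q, hq⟩ := hex k
    have h1 : ex n r k - 1 = k * (R * h) + R ^ 2 * q := by
      rw [hq]
      omega
    rw [h1, pow_add, hz1, mul_one]
  refine ⟨?_, ?_, ?_⟩
  · rw [hzk 1, one_mul, pow_mul]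
    have h1 : IsPrimitiveRoot (z ^ R) (2 ^ r) :=
      hz.pow (by positivity) hRr.symm
    refine h1.pow_of_coprime h ?_
    refine Nat.Coprime.pow_right r ?_
    have h2 : Odd h := ⟨c, by rw [hh]; ring⟩
    exact Nat.coprime_two_right.2 h2
  · intro k
    rw [hzk k, hzk 1, one_mul, ← pow_mul, mul_comm k]
  · intro k
    obtain ⟨q, hq⟩ := hex k
    have h1 : ex n r k - 1 = R * (k * h + R * q) := by
      rw [hq]
      have : 1 + k * (R * h) + R ^ 2 * q = 1 + R * (k * h + R * q) := by ring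
      rw [this]
      omega
    rw [h1, ← hRr]
    exact ⟨k * h + R * q, by ring⟩

end Pool.Agent.Helper6.WC
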